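import Pool.Agent.Q6.Add.Systems

/-!
# MP_80f852_al : small integer solutions of systems of unit and addition equations
-/

namespace Pool.Agent.Results.MP_80f852_al.IntegerBox

/-- For every integer tuple `x` of length `n` there is an integer tuple `y` with entries of
absolute value at most `2 ^ (n - 1)` satisfying every equation `y i = 1` and `y i + y j = y k`
that `x` satisfies. -/
theorem result (n : ℕ) (x : Fin n → ℤ) :
    ∃ y : Fin n → ℤ, (∀ i, |y i| ≤ 2 ^ (n - 1)) ∧ (∀ i, x i = 1 → y i = 1) ∧
      ∀ i j k, x k = x i + x j → y k = y i + y j := by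
  by_cases hU : ∃ u0, x u0 = 1
  · obtain ⟨u0, hu0⟩ := hU
    obtain ⟨y, hy, h1, h2⟩ := Q6.Add.integer_solution {i | x i = 1}
      {t : Fin n × Fin n × Fin n | x t.1 + x t.2.1 = x t.2.2} u0 hu0 x (fun i hi => hi)
      (fun t ht => ht)
    exact ⟨y, hy, fun i hi => h1 i hi, fun i j k h => (h2 (i, j, k) h.symm).symm⟩
  · push Not at hU
    exact ⟨fun _ => 0, fun i => by simp, fun i hi => absurd hi (hU i), fun i j k _ => by simp⟩

end Pool.Agent.Results.MP_80f852_al.IntegerBox
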